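import Pool.Agent.Helper64.AS.Defs

/-!
# The duality argument (`S_dual`)

The mean square of the dual function on the frequencies is bounded by the sum over the differences
of two boxes; the diagonal is Bessel's inequality, the rest is the bound of the kernels.
-/

set_option autoImplicit false

open Finset MeasureTheory

namespace Pool.Agent.Helper96.AS.Dual

open Pool.Agent.Helper64.AS

/-- A character. -/
noncomputable def E (r : ℕ) (k : ℤ) (m : Fin r → ℤ) (z : ℝ × (Fin r → ℝ)) : ℂ :=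
  Complex.exp (((∑ l, z.2 l * m l - z.1 * k : ℝ) : ℂ) * Complex.I)

lemma norm_E (r : ℕ) (k : ℤ) (m : Fin r → ℤ) (z : ℝ × (Fin r → ℝ)) : ‖E r k m z‖ = 1 := by
  unfold E
  exact Complex.norm_exp_ofReal_mul_I _

lemma cont_E (r : ℕ) (k : ℤ) (m : Fin r → ℤ) : Continuous (E r k m) := by
  unfold E
  fun_prop

lemma conj_E (r : ℕ) (k : ℤ) (m : Fin r → ℤ) (z : ℝ × (Fin r → ℝ)) :
    (starRingEnd ℂ) (E r k m z) = E r (-k) (-m) z := by
  unfold E
  rw [← Complex.exp_conj]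
  congr 1
  simp only [map_mul, Complex.conj_ofReal, Complex.conj_I]
  push_cast
  simp only [Pi.neg_apply, Int.cast_neg, mul_neg, Finset.sum_neg_distrib]
  ring

lemma E_mul_conj (r : ℕ) (k k' : ℤ) (m m' : Fin r → ℤ) (z : ℝ × (Fin r → ℝ)) :
    E r k m z * (starRingEnd ℂ) (E r k' m' z) = E r (k - k') (m - m') z := by
  rw [conj_E]
  unfold E
  rw [← Complex.exp_add]
  congr 1
  push_cast
  simp only [Pi.neg_apply, Pi.sub_apply, Int.cast_neg, Int.cast_sub, mul_neg, mul_sub,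
    Finset.sum_neg_distrib, Finset.sum_sub_distrib]
  ring

lemma E_prod (r : ℕ) (k : ℤ) (m : Fin r → ℤ) (z : ℝ × (Fin r → ℝ)) :
    E r k m z = Complex.exp ((((-k : ℤ) : ℂ) * Complex.I) * (z.1 : ℂ)) *
      ∏ l, Complex.exp ((((m l : ℤ) : ℂ) * Complex.I) * (z.2 l : ℂ)) := by
  unfold E
  rw [← Complex.exp_sum, ← Complex.exp_add]
  congr 1
  push_cast
  rw [sub_mul, Finset.sum_mul, sub_eq_neg_add]
  congr 1
  · ring
  · refine Finset.sum_congr rfl fun l _ => ?_
    ring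

lemma int1 (n : ℤ) : ∫ x in Set.Icc (0 : ℝ) (2 * Real.pi),
    Complex.exp (((n : ℂ) * Complex.I) * (x : ℂ)) = if n = 0 then ((2 * Real.pi : ℝ) : ℂ) else 0 := by
  have hpi : (0 : ℝ) ≤ 2 * Real.pi := by positivity
  rw [integral_Icc_eq_integral_Ioc, ← intervalIntegral.integral_of_le hpi]
  split_ifs with h
  · subst h
    simp
  · have hc : ((n : ℂ) * Complex.I) ≠ 0 := by
      apply mul_ne_zero
      · exact_mod_cast h
      · exact Complex.I_ne_zero
    rw [integral_exp_mul_complex hc]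
    have h1 : Complex.exp ((n : ℂ) * Complex.I * ((2 * Real.pi : ℝ) : ℂ)) = 1 := by
      have := Complex.exp_int_mul_two_pi_mul_I n
      rw [← this]
      congr 1
      push_cast
      ring
    rw [h1]
    simp

lemma int_E (r : ℕ) (k : ℤ) (m : Fin r → ℤ) :
    ∫ z in cube r, E r k m z = if k = 0 ∧ m = 0 then ((2 * Real.pi : ℝ) : ℂ) ^ (r + 1) else 0 := by
  have hset : (Set.Icc 0 (fun _ => 2 * Real.pi) : Set (Fin r → ℝ)) =
      Set.univ.pi (fun _ => Set.Icc 0 (2 * Real.pi)) := by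
    rw [Set.pi_univ_Icc]
    rfl
  have h1 : (volume : Measure (ℝ × (Fin r → ℝ))).restrict (cube r) =
      ((volume : Measure ℝ).restrict (Set.Icc 0 (2 * Real.pi))).prod
        (Measure.pi (fun _ : Fin r => (volume : Measure ℝ).restrict (Set.Icc 0 (2 * Real.pi)))) := by
    unfold cube
    rw [Measure.volume_eq_prod, ← Measure.prod_restrict, hset, volume_pi,
      Measure.restrict_pi_pi]
  rw [h1]
  simp_rw [E_prod]
  rw [integral_prod_mul (fun t : ℝ => Complex.exp ((((-k : ℤ) : ℂ) * Complex.I) * (t : ℂ)))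
    (fun x : Fin r → ℝ => ∏ l, Complex.exp ((((m l : ℤ) : ℂ) * Complex.I) * (x l : ℂ)))]
  rw [integral_fintype_prod_eq_prod
    (fun (l : Fin r) (x : ℝ) => Complex.exp ((((m l : ℤ) : ℂ) * Complex.I) * (x : ℂ)))]
  rw [int1]
  simp_rw [int1]
  by_cases hk : k = 0
  · by_cases hm : m = 0
    · simp [hk, hm, pow_succ, mul_comm]
    · have : ∃ l, m l ≠ 0 := by
        by_contra hcon
        push Not at hcon
        exact hm (funext hcon)
      obtain ⟨l, hl⟩ := this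
      have h0 : ∏ i : Fin r, (if m i = 0 then ((2 * Real.pi : ℝ) : ℂ) else 0) = 0 :=
        Finset.prod_eq_zero (Finset.mem_univ l) (by simp [hl])
      rw [h0]
      simp [hm]
  · simp [hk]

lemma cube_compact (r : ℕ) : IsCompact (cube r) := by
  unfold cube
  exact isCompact_Icc.prod isCompact_Icc

lemma cube_fin (r : ℕ) : volume (cube r) < ⊤ := (cube_compact r).measure_lt_top

lemma cube_meas (r : ℕ) : MeasurableSet (cube r) := (cube_compact r).measurableSet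

section
variable {r : ℕ} {ι : Type} (Q : Finset ι) (lam : ι → ℤ × (Fin r → ℤ))
  (W : Set (ℝ × (Fin r → ℝ))) (h : ℝ × (Fin r → ℝ) → ℂ)

/-- Fourier coefficient of `h 1_W` -/
noncomputable def H (W : Set (ℝ × (Fin r → ℝ))) (h : ℝ × (Fin r → ℝ) → ℂ)
    (p : ℤ × (Fin r → ℤ)) : ℂ := ∫ z in W, h z * E r p.1 p.2 z

lemma norm_sq_int (hinj : Set.InjOn lam Q) (c : ι → ℂ) :
    ∫ z in cube r, ‖∑ q ∈ Q, c q * E r (lam q).1 (lam q).2 z‖ ^ 2 =
      (2 * Real.pi) ^ (r + 1) * ∑ q ∈ Q, ‖c q‖ ^ 2 := by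
  have h1 : ∀ z : ℝ × (Fin r → ℝ),
      ((‖∑ q ∈ Q, c q * E r (lam q).1 (lam q).2 z‖ ^ 2 : ℝ) : ℂ) =
      ∑ q ∈ Q, ∑ q' ∈ Q, (c q * (starRingEnd ℂ) (c q')) *
        E r ((lam q).1 - (lam q').1) ((lam q).2 - (lam q').2) z := by
    intro z
    rw [← Complex.normSq_eq_norm_sq, ← Complex.mul_conj, map_sum, Finset.sum_mul_sum]
    refine Finset.sum_congr rfl fun q _ => Finset.sum_congr rfl fun q' _ => ?_
    rw [map_mul, ← E_mul_conj]
    ring
  have hI : ∀ (k : ℤ) (m : Fin r → ℤ) (d : ℂ),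
      Integrable (fun z => d * E r k m z) (volume.restrict (cube r)) := by
    intro k m d
    exact ((continuous_const.mul (cont_E r k m)).continuousOn).integrableOn_compact
      (cube_compact r)
  have h2 : ((∫ z in cube r, ‖∑ q ∈ Q, c q * E r (lam q).1 (lam q).2 z‖ ^ 2 : ℝ) : ℂ) =
      (((2 * Real.pi) ^ (r + 1) * ∑ q ∈ Q, ‖c q‖ ^ 2 : ℝ) : ℂ) := by
    rw [← integral_complex_ofReal]
    simp_rw [h1]
    rw [integral_finsetSum _ (fun q _ => integrable_finsetSum _ (fun q' _ => hI _ _ _))]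
    simp_rw [integral_finsetSum Q (fun q' _ => hI _ _ _)]
    simp_rw [integral_const_mul, int_E]
    push_cast
    rw [Finset.mul_sum]
    refine Finset.sum_congr rfl fun q hq => ?_
    rw [Finset.sum_eq_single q]
    · simp only [sub_self, and_self, if_true]
      rw [Complex.mul_conj, Complex.normSq_eq_norm_sq]
      push_cast
      ring
    · intro q' hq' hne
      rw [if_neg, mul_zero]
      rintro ⟨e1, e2⟩
      apply hne
      apply hinj hq' hq
      apply Prod.ext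
      · linarith [e1]
      · funext l
        have := congrFun e2 l
        simp at this
        linarith
    · intro hcon
      exact absurd hq hcon
  exact_mod_cast h2

variable {W h}

lemma meas_int (_ : MeasurableSet W) (hWc : W ⊆ cube r) (hm : Measurable h)
    (hb : ∀ z, ‖h z‖ ≤ 1) (g : ℝ × (Fin r → ℝ) → ℂ) (hg : Continuous g) :
    Integrable (fun z => h z * g z) (volume.restrict W) := by
  have h1 : Integrable g (volume.restrict W) :=
    (hg.continuousOn.integrableOn_compact (cube_compact r)).mono_set hWc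
  refine h1.bdd_mul (c := 1) hm.aestronglyMeasurable ?_
  exact Filter.Eventually.of_forall hb

lemma bessel (hinj : Set.InjOn lam Q) (hW : MeasurableSet W) (hWc : W ⊆ cube r)
    (hm : Measurable h) (hb : ∀ z, ‖h z‖ ≤ 1) :
    ∑ q ∈ Q, ‖H W h (lam q)‖ ^ 2 ≤ (2 * Real.pi) ^ (r + 1) * (volume W).toReal := by
  set S := ∑ q ∈ Q, ‖H W h (lam q)‖ ^ 2 with hS
  set c : ι → ℂ := fun q => (starRingEnd ℂ) (H W h (lam q)) with hc
  set P : ℝ × (Fin r → ℝ) → ℂ := fun z => ∑ q ∈ Q, c q * E r (lam q).1 (lam q).2 z with hP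
  have hPc : Continuous P := by
    rw [hP]
    exact continuous_finsetSum _ fun q _ => continuous_const.mul (cont_E _ _ _)
  have hWf : volume W < ⊤ := lt_of_le_of_lt (measure_mono hWc) (cube_fin r)
  have h1 : (S : ℂ) = ∫ z in W, h z * P z := by
    rw [hP]
    simp only [Finset.mul_sum]
    rw [integral_finsetSum]
    · rw [hS]
      push_cast
      refine Finset.sum_congr rfl fun q _ => ?_
      have : (fun z => h z * (c q * E r (lam q).1 (lam q).2 z)) =
          fun z => c q * (h z * E r (lam q).1 (lam q).2 z) := by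
        funext z; ring
      rw [this, integral_const_mul, hc]
      change _ = (starRingEnd ℂ) (H W h (lam q)) * H W h (lam q)
      rw [mul_comm, Complex.mul_conj, Complex.normSq_eq_norm_sq]
      push_cast
      rfl
    · intro q _
      exact meas_int hW hWc hm hb _ (continuous_const.mul (cont_E _ _ _))
  set R : ℝ := (2 * Real.pi) ^ (r + 1) with hR
  have hRpos : 0 < R := by positivity
  have h2 : S ≤ ∫ z in W, (R / 2 + ‖P z‖ ^ 2 / (2 * R)) := by
    have h3 : S = ‖∫ z in W, h z * P z‖ := by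
      rw [← h1, Complex.norm_real, Real.norm_eq_abs, abs_of_nonneg]
      exact Finset.sum_nonneg fun _ _ => by positivity
    rw [h3]
    refine (norm_integral_le_integral_norm _).trans ?_
    refine integral_mono_of_nonneg (Filter.Eventually.of_forall fun z => norm_nonneg _) ?_
      (Filter.Eventually.of_forall fun z => ?_)
    · refine (Continuous.continuousOn ?_).integrableOn_compact (cube_compact r) |>.mono_set hWc
      fun_prop
    · change ‖h z * P z‖ ≤ _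
      rw [norm_mul]
      have h4 : ‖h z‖ * ‖P z‖ ≤ ‖P z‖ := by
        have := mul_le_mul_of_nonneg_right (hb z) (norm_nonneg (P z))
        linarith
      refine h4.trans ?_
      have h5 : R / 2 + ‖P z‖ ^ 2 / (2 * R) - ‖P z‖ = (R - ‖P z‖) ^ 2 / (2 * R) := by
        field_simp
        ring
      have h6 : 0 ≤ (R - ‖P z‖) ^ 2 / (2 * R) := by positivity
      linarith
  have h7 : ∫ z in W, (R / 2 + ‖P z‖ ^ 2 / (2 * R)) =
      R / 2 * (volume W).toReal + (∫ z in W, ‖P z‖ ^ 2) / (2 * R) := by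
    rw [integral_add]
    · have e1 : ∫ z in W, ‖P z‖ ^ 2 / (2 * R) = (∫ z in W, ‖P z‖ ^ 2) / (2 * R) :=
        integral_div _ _
      rw [e1, setIntegral_const]
      simp only [Measure.real, smul_eq_mul]
      ring
    · exact integrableOn_const hWf.ne
    · refine (Continuous.continuousOn ?_).integrableOn_compact (cube_compact r) |>.mono_set hWc
      fun_prop
  have h8 : ∫ z in W, ‖P z‖ ^ 2 ≤ R * S := by
    have h9 : ∫ z in W, ‖P z‖ ^ 2 ≤ ∫ z in cube r, ‖P z‖ ^ 2 := by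
      refine setIntegral_mono_set ?_ ?_ ?_
      · refine (Continuous.continuousOn ?_).integrableOn_compact (cube_compact r)
        fun_prop
      · exact Filter.Eventually.of_forall fun z => by positivity
      · exact hWc.eventuallyLE
    refine h9.trans ?_
    rw [hP]
    simp only []
    rw [norm_sq_int Q lam hinj c, hS, hc]
    simp only [RCLike.norm_conj]
    exact le_refl _
  have h10 : (∫ z in W, ‖P z‖ ^ 2) / (2 * R) ≤ S / 2 := by
    rw [div_le_div_iff₀ (by positivity) (by norm_num)]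
    nlinarith
  rw [h7] at h2
  linarith

lemma offdiag (Φ : ι → ℝ) (B : ℝ) (hW : MeasurableSet W) (hWc : W ⊆ cube r)
    (hm : Measurable h) (hb : ∀ z, ‖h z‖ ≤ 1)
    (hB : ∀ z w, ‖∑ q ∈ Q, (Φ q : ℂ) * (E r (lam q).1 (lam q).2 z *
      (starRingEnd ℂ) (E r (lam q).1 (lam q).2 w))‖ ≤ B) :
    ∑ q ∈ Q, Φ q * ‖H W h (lam q)‖ ^ 2 ≤ B * (volume W).toReal ^ 2 := by
  have hWf : volume W < ⊤ := lt_of_le_of_lt (measure_mono hWc) (cube_fin r)
  have hbc : ∀ z, ‖(starRingEnd ℂ) (h z)‖ ≤ 1 := fun z => by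
    rw [RCLike.norm_conj]; exact hb z
  have hmc : Measurable fun z => (starRingEnd ℂ) (h z) :=
    Complex.continuous_conj.measurable.comp hm
  set P : ℝ × (Fin r → ℝ) → ℂ := fun z => ∑ q ∈ Q, ((Φ q : ℂ) *
    (starRingEnd ℂ) (H W h (lam q))) * E r (lam q).1 (lam q).2 z with hP
  have hPc : Continuous P := by
    rw [hP]
    exact continuous_finsetSum _ fun q _ => continuous_const.mul (cont_E _ _ _)
  have h1 : ((∑ q ∈ Q, Φ q * ‖H W h (lam q)‖ ^ 2 : ℝ) : ℂ) = ∫ z in W, h z * P z := by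
    rw [hP]
    simp only [Finset.mul_sum]
    rw [integral_finsetSum]
    · push_cast
      refine Finset.sum_congr rfl fun q _ => ?_
      have : (fun z => h z * (((Φ q : ℂ) * (starRingEnd ℂ) (H W h (lam q))) *
          E r (lam q).1 (lam q).2 z)) =
          fun z => ((Φ q : ℂ) * (starRingEnd ℂ) (H W h (lam q))) *
            (h z * E r (lam q).1 (lam q).2 z) := by
        funext z; ring
      rw [this, integral_const_mul]
      change _ = (Φ q : ℂ) * (starRingEnd ℂ) (H W h (lam q)) * H W h (lam q)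
      rw [mul_assoc, mul_comm ((starRingEnd ℂ) _) _, Complex.mul_conj, Complex.normSq_eq_norm_sq]
      push_cast
      rfl
    · intro q _
      exact meas_int hW hWc hm hb _ (continuous_const.mul (cont_E _ _ _))
  have h2 : ∀ z, ‖P z‖ ≤ B * (volume W).toReal := by
    intro z
    have h3 : P z = ∫ w in W, (starRingEnd ℂ) (h w) * ∑ q ∈ Q, (Φ q : ℂ) *
        (E r (lam q).1 (lam q).2 z * (starRingEnd ℂ) (E r (lam q).1 (lam q).2 w)) := by
      simp only [Finset.mul_sum]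
      rw [integral_finsetSum]
      · rw [hP]
        refine Finset.sum_congr rfl fun q _ => ?_
        have h4 : (fun w => (starRingEnd ℂ) (h w) * ((Φ q : ℂ) *
            (E r (lam q).1 (lam q).2 z * (starRingEnd ℂ) (E r (lam q).1 (lam q).2 w)))) =
            fun w => ((Φ q : ℂ) * E r (lam q).1 (lam q).2 z) *
              (starRingEnd ℂ) (h w * E r (lam q).1 (lam q).2 w) := by
          funext w
          rw [map_mul]
          ring
        rw [h4, integral_const_mul, integral_conj]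
        change _ = _ * (starRingEnd ℂ) (H W h (lam q))
        ring
      · intro q _
        refine meas_int hW hWc hmc hbc _ ?_
        exact continuous_const.mul (continuous_const.mul
          (Complex.continuous_conj.comp (cont_E _ _ _)))
    rw [h3]
    refine norm_setIntegral_le_of_norm_le_const hWf fun w _ => ?_
    rw [norm_mul]
    have h5 := hB z w
    have h6 := mul_le_mul_of_nonneg_right (hbc w) (norm_nonneg (∑ q ∈ Q, (Φ q : ℂ) *
        (E r (lam q).1 (lam q).2 z * (starRingEnd ℂ) (E r (lam q).1 (lam q).2 w))))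
    linarith
  have h7 : ‖∫ z in W, h z * P z‖ ≤ (B * (volume W).toReal) * (volume W).toReal := by
    refine norm_setIntegral_le_of_norm_le_const hWf fun z _ => ?_
    rw [norm_mul]
    have h6 := mul_le_mul_of_nonneg_right (hb z) (norm_nonneg (P z))
    linarith [h2 z]
  rw [← h1, Complex.norm_real, Real.norm_eq_abs] at h7
  have h8 := (le_abs_self _).trans h7
  nlinarith [h8]

end

/-! ## Representations of the frequencies as differences -/

/-- The shifted frequencies. -/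
def pr (r : ℕ) (k₀ : ℤ) (β : Fin r → ℤ) (ξ : ℤ × (Fin r → ℤ)) : ℤ × (Fin r → ℤ) :=
  (ξ.1 ^ 2 + ∑ l, (ξ.2 l - β l) ^ 2 - k₀, ξ.2 - β)

/-- difference of two points of the boxes -/
def df (r : ℕ) (q : (ℕ × (Fin r → ℕ)) × (ℕ × (Fin r → ℕ))) : ℤ × (Fin r → ℤ) :=
  ((q.1.1 : ℤ) - q.2.1, fun l => (q.1.2 l : ℤ) - q.2.2 l)

lemma fiber_card (r : ℕ) (k₀ : ℤ) (β : Fin r → ℤ) (s : Finset (ℤ × (Fin r → ℤ)))
    (d : ℤ × (Fin r → ℤ)) : (s.filter (fun ξ => pr r k₀ β ξ = d)).card ≤ 2 := by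
  by_cases hne : (s.filter (fun ξ => pr r k₀ β ξ = d)).Nonempty
  · obtain ⟨ξ, hξ⟩ := hne
    have hξ' := (Finset.mem_filter.mp hξ).2
    have hsub : s.filter (fun ξ => pr r k₀ β ξ = d) ⊆ {ξ, (-ξ.1, ξ.2)} := by
      intro η hη
      have hη' := (Finset.mem_filter.mp hη).2
      rw [← hξ'] at hη'
      have h1 := congrArg Prod.fst hη'
      have h2 := congrArg Prod.snd hη'
      simp only [pr] at h1 h2
      have h3 : η.2 = ξ.2 := by
        funext l
        have := congrFun h2 l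
        simp only [Pi.sub_apply] at this
        linarith
      have h4 : η.1 ^ 2 = ξ.1 ^ 2 := by
        rw [h3] at h1
        linarith
      rw [Finset.mem_insert, Finset.mem_singleton]
      rcases sq_eq_sq_iff_eq_or_eq_neg.mp h4 with h5 | h5
      · left; exact Prod.ext h5 h3
      · right; exact Prod.ext h5 h3
    exact (Finset.card_le_card hsub).trans Finset.card_le_two
  · rw [Finset.not_nonempty_iff_eq_empty] at hne
    rw [hne]
    simp

lemma comb (r M M' L : ℕ) (k₀ : ℤ) (S₀ : Finset ℤ) (β : Fin r → ℤ)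
    (f : ℤ × (Fin r → ℤ) → ℝ) (hf : ∀ p, 0 ≤ f p) (hL : 2 * L ≤ M')
    (hS : ∀ n ∈ S₀, k₀ ≤ n ^ 2 ∧ 2 * (n ^ 2 - k₀ + r * (L : ℤ) ^ 2) ≤ M) :
    ((M : ℝ) / 2) * ((M' : ℝ) / 2) ^ r * ∑ ξ ∈ bx r S₀ β L, f (pr r k₀ β ξ) ≤
      2 * ∑ y ∈ range M ×ˢ IJ r M', ∑ x ∈ range M ×ˢ IJ r M', f (df r (x, y)) := by
  classical
  set D := (bx r S₀ β L).image (pr r k₀ β) with hD
  have h1 : ∑ ξ ∈ bx r S₀ β L, f (pr r k₀ β ξ) ≤ 2 * ∑ d ∈ D, f d := by
    rw [Finset.sum_comp, Finset.mul_sum]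
    refine Finset.sum_le_sum fun d _ => ?_
    rw [nsmul_eq_mul]
    refine mul_le_mul_of_nonneg_right ?_ (hf d)
    exact_mod_cast fiber_card r k₀ β _ d
  have hDm : ∀ d ∈ D, 0 ≤ d.1 ∧ 2 * d.1 ≤ M ∧ ∀ l, 0 ≤ d.2 l ∧ 2 * d.2 l ≤ M' := by
    intro d hd
    rw [hD, Finset.mem_image] at hd
    obtain ⟨ξ, hξ, rfl⟩ := hd
    unfold bx at hξ
    rw [Finset.mem_product, Fintype.mem_piFinset] at hξ
    obtain ⟨hξ1, hξ2⟩ := hξ
    obtain ⟨hS1, hS2⟩ := hS _ hξ1
    have h2 : ∀ l, 0 ≤ ξ.2 l - β l ∧ ξ.2 l - β l ≤ L := by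
      intro l
      have := Finset.mem_Icc.mp (hξ2 l)
      constructor <;> linarith [this.1, this.2]
    have h3 : 0 ≤ ∑ l, (ξ.2 l - β l) ^ 2 := Finset.sum_nonneg fun _ _ => sq_nonneg _
    have h4 : ∑ l, (ξ.2 l - β l) ^ 2 ≤ r * (L : ℤ) ^ 2 := by
      calc ∑ l, (ξ.2 l - β l) ^ 2 ≤ ∑ _l : Fin r, (L : ℤ) ^ 2 :=
            Finset.sum_le_sum fun l _ => pow_le_pow_left₀ (h2 l).1 (h2 l).2 2
        _ = r * (L : ℤ) ^ 2 := by simp
    simp only [pr, Pi.sub_apply]
    refine ⟨by linarith, by linarith, fun l => ⟨(h2 l).1, ?_⟩⟩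
    have h5 := (h2 l).2
    have h6 : (2 : ℤ) * L ≤ M' := by exact_mod_cast hL
    linarith
  set Hf := range ((M + 1) / 2) ×ˢ Fintype.piFinset (fun _ : Fin r => range ((M' + 1) / 2))
    with hHf
  have hHsub : Hf ⊆ range M ×ˢ IJ r M' := by
    intro y hy
    rw [hHf, Finset.mem_product, Fintype.mem_piFinset] at hy
    rw [Finset.mem_product, Fintype.mem_piFinset]
    refine ⟨?_, fun l => ?_⟩
    · have := Finset.mem_range.mp hy.1
      exact Finset.mem_range.mpr (by omega)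
    · have := Finset.mem_range.mp (hy.2 l)
      exact Finset.mem_range.mpr (by omega)
  have h2 : ∀ y ∈ Hf, ∑ d ∈ D, f d ≤ ∑ x ∈ range M ×ˢ IJ r M', f (df r (x, y)) := by
    intro y hy
    rw [hHf, Finset.mem_product, Fintype.mem_piFinset] at hy
    obtain ⟨hy1, hy2⟩ := hy
    have hy1' := Finset.mem_range.mp hy1
    set e : ℤ × (Fin r → ℤ) → ℕ × (Fin r → ℕ) :=
      fun d => ((d.1 + y.1).toNat, fun l => (d.2 l + y.2 l).toNat) with he
    have hge : ∀ d ∈ D, df r (e d, y) = d := by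
      intro d hd
      obtain ⟨ha, hb, hc⟩ := hDm d hd
      unfold df
      refine Prod.ext ?_ ?_
      · simp only [he]
        rw [Int.toNat_of_nonneg (by positivity)]
        ring
      · funext l
        simp only [he]
        have := (hc l).1
        rw [Int.toNat_of_nonneg (by positivity)]
        ring
    have hinj : Set.InjOn e D := by
      intro d hd d' hd' hdd
      rw [← hge d hd, ← hge d' hd', hdd]
    calc ∑ d ∈ D, f d = ∑ d ∈ D, f (df r (e d, y)) :=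
          Finset.sum_congr rfl fun d hd => by rw [hge d hd]
      _ = ∑ x ∈ D.image e, f (df r (x, y)) := by
          rw [Finset.sum_image hinj]
      _ ≤ ∑ x ∈ range M ×ˢ IJ r M', f (df r (x, y)) := by
          refine Finset.sum_le_sum_of_subset_of_nonneg ?_ (fun _ _ _ => hf _)
          intro x hx
          rw [Finset.mem_image] at hx
          obtain ⟨d, hd, rfl⟩ := hx
          obtain ⟨ha, hb, hc⟩ := hDm d hd
          rw [Finset.mem_product, Fintype.mem_piFinset]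
          refine ⟨?_, fun l => ?_⟩
          · refine Finset.mem_range.mpr ?_
            simp only [he]
            omega
          · refine Finset.mem_range.mpr ?_
            simp only [he]
            have h3 := (hc l).2
            have h4 := (hc l).1
            have h5 := Finset.mem_range.mp (hy2 l)
            omega
  have h3 : (Hf.card : ℝ) * ∑ d ∈ D, f d ≤
      ∑ y ∈ range M ×ˢ IJ r M', ∑ x ∈ range M ×ˢ IJ r M', f (df r (x, y)) := by
    calc (Hf.card : ℝ) * ∑ d ∈ D, f d = ∑ _y ∈ Hf, ∑ d ∈ D, f d := by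
          rw [Finset.sum_const, nsmul_eq_mul]
      _ ≤ ∑ y ∈ Hf, ∑ x ∈ range M ×ˢ IJ r M', f (df r (x, y)) := Finset.sum_le_sum h2
      _ ≤ _ := Finset.sum_le_sum_of_subset_of_nonneg hHsub
          (fun _ _ _ => Finset.sum_nonneg fun _ _ => hf _)
  have hcard : ((M : ℝ) / 2) * ((M' : ℝ) / 2) ^ r ≤ Hf.card := by
    rw [hHf, Finset.card_product, Fintype.card_piFinset]
    simp only [Finset.card_range, Finset.prod_const, Finset.card_univ, Fintype.card_fin]
    push_cast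
    have e1 : (M : ℝ) / 2 ≤ (((M + 1) / 2 : ℕ) : ℝ) := by
      have : (M : ℝ) ≤ 2 * (((M + 1) / 2 : ℕ) : ℝ) := by
        exact_mod_cast (by omega : M ≤ 2 * ((M + 1) / 2))
      linarith
    have e2 : (M' : ℝ) / 2 ≤ (((M' + 1) / 2 : ℕ) : ℝ) := by
      have : (M' : ℝ) ≤ 2 * (((M' + 1) / 2 : ℕ) : ℝ) := by
        exact_mod_cast (by omega : M' ≤ 2 * ((M' + 1) / 2))
      linarith
    exact mul_le_mul e1 (pow_le_pow_left₀ (by positivity) e2 r) (by positivity) (by positivity)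
  have hDn : 0 ≤ ∑ d ∈ D, f d := Finset.sum_nonneg fun _ _ => hf _
  have hc0 : 0 ≤ ((M : ℝ) / 2) * ((M' : ℝ) / 2) ^ r := by positivity
  calc ((M : ℝ) / 2) * ((M' : ℝ) / 2) ^ r * ∑ ξ ∈ bx r S₀ β L, f (pr r k₀ β ξ)
      ≤ ((M : ℝ) / 2) * ((M' : ℝ) / 2) ^ r * (2 * ∑ d ∈ D, f d) :=
        mul_le_mul_of_nonneg_left h1 hc0
    _ ≤ (Hf.card : ℝ) * (2 * ∑ d ∈ D, f d) :=
        mul_le_mul_of_nonneg_right hcard (by positivity)
    _ = 2 * ((Hf.card : ℝ) * ∑ d ∈ D, f d) := by ring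
    _ ≤ _ := by linarith

/-- The frequency of a difference. -/
def La (r : ℕ) (k₀ : ℤ) (β : Fin r → ℤ) (p : ℤ × (Fin r → ℤ)) : ℤ × (Fin r → ℤ) :=
  (k₀ + p.1 + ∑ l, β l ^ 2 + 2 * ∑ l, β l * p.2 l, β + p.2)

lemma La_inj (r : ℕ) (k₀ : ℤ) (β : Fin r → ℤ) : Function.Injective (La r k₀ β) := by
  intro p p' hpp
  have h1 := congrArg Prod.fst hpp
  have h2 := congrArg Prod.snd hpp
  simp only [La] at h1 h2
  have h3 : p.2 = p'.2 := add_left_cancel h2
  rw [h3] at h1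
  exact Prod.ext (by linarith) h3

lemma La_pr (r : ℕ) (k₀ : ℤ) (β : Fin r → ℤ) (ξ : ℤ × (Fin r → ℤ)) :
    La r k₀ β (pr r k₀ β ξ) = (ξ.1 ^ 2 + ∑ l, ξ.2 l ^ 2, ξ.2) := by
  unfold La pr
  refine Prod.ext ?_ ?_
  · simp only [Pi.sub_apply]
    have : ∑ l, (ξ.2 l - β l) ^ 2 + ∑ l, β l ^ 2 + 2 * ∑ l, β l * (ξ.2 l - β l) =
        ∑ l, ξ.2 l ^ 2 := by
      rw [Finset.mul_sum, ← Finset.sum_add_distrib, ← Finset.sum_add_distrib]
      exact Finset.sum_congr rfl fun l _ => by ring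
    linarith
  · simp

lemma sum_four {r M M' : ℕ} {α : Type} [AddCommMonoid α]
    (g : (ℕ × (Fin r → ℕ)) × (ℕ × (Fin r → ℕ)) → α) :
    ∑ q ∈ (range M ×ˢ IJ r M') ×ˢ (range M ×ˢ IJ r M'), g q =
      ∑ i ∈ range M, ∑ j ∈ range M, ∑ I ∈ IJ r M', ∑ J ∈ IJ r M', g ((i, I), (j, J)) := by
  rw [Finset.sum_product, Finset.sum_product]
  refine Finset.sum_congr rfl fun i _ => ?_
  simp_rw [Finset.sum_product]
  rw [Finset.sum_comm]

/-- The argument of the sieve function. -/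
def ar (r : ℕ) (k₀ : ℤ) (p : ℤ × (Fin r → ℤ)) : ℤ := k₀ + p.1 - ∑ l, p.2 l ^ 2

lemma kernel (r M M' : ℕ) (k₀ : ℤ) (ε : ℝ) (A : Finset ℕ) (β : Fin r → ℤ)
    (z w : ℝ × (Fin r → ℝ)) :
    ∃ c : ℂ, ‖c‖ = 1 ∧
    ∑ q ∈ (range M ×ˢ IJ r M') ×ˢ (range M ×ˢ IJ r M'),
      ((phi ε A (ar r k₀ (df r q)) : ℝ) : ℂ) *
        (E r (La r k₀ β (df r q)).1 (La r k₀ β (df r q)).2 z *
          (starRingEnd ℂ) (E r (La r k₀ β (df r q)).1 (La r k₀ β (df r q)).2 w)) =
      c * KA r M M' k₀ ε A ((z.1 - w.1) / (2 * Real.pi))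
        (fun l => ((z.2 l - w.2 l) - 2 * β l * (z.1 - w.1)) / (2 * Real.pi)) := by
  obtain ⟨c, hc⟩ : ∃ c : ℂ, c = Complex.exp (((∑ l, (z.2 l - w.2 l) * β l -
    (z.1 - w.1) * ∑ l, (β l : ℝ) ^ 2 : ℝ) : ℂ) * Complex.I) := ⟨_, rfl⟩
  refine ⟨c, by rw [hc]; exact Complex.norm_exp_ofReal_mul_I _, ?_⟩
  rw [sum_four]
  unfold KA
  simp only [Finset.mul_sum]
  refine Finset.sum_congr rfl fun i _ => Finset.sum_congr rfl fun j _ =>
    Finset.sum_congr rfl fun I _ => Finset.sum_congr rfl fun J _ => ?_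
  have ha : ar r k₀ (df r ((i, I), (j, J))) = k₀ + i - j - ∑ l, ((I l : ℤ) - J l) ^ 2 := by
    unfold ar df
    simp only []
    ring
  rw [ha]
  rw [mul_left_comm c]
  congr 1
  rw [conj_E, hc]
  unfold E ee
  rw [← Complex.exp_add, ← Complex.exp_add]
  congr 1
  rw [← add_mul, ← add_mul]
  congr 1
  rw [← Complex.ofReal_add, ← Complex.ofReal_add]
  congr 1
  have hpi : (2 * Real.pi) ≠ 0 := by positivity
  have e1 : 2 * Real.pi * (∑ l, ((I l : ℝ) - J l) *
      (((z.2 l - w.2 l) - 2 * β l * (z.1 - w.1)) / (2 * Real.pi)) -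
      (k₀ + i - j) * ((z.1 - w.1) / (2 * Real.pi))) =
      ∑ l, ((I l : ℝ) - J l) * ((z.2 l - w.2 l) - 2 * β l * (z.1 - w.1)) -
      (k₀ + i - j) * (z.1 - w.1) := by
    rw [mul_sub, Finset.mul_sum]
    congr 1
    · refine Finset.sum_congr rfl fun l _ => ?_
      field_simp
    · field_simp
  rw [e1]
  unfold La df
  simp only [Pi.neg_apply, Pi.add_apply]
  push_cast
  have e2 : ∑ l, ((I l : ℝ) - J l) * ((z.2 l - w.2 l) - 2 * β l * (z.1 - w.1)) =
      ∑ l, (z.2 l - w.2 l) * ((I l : ℝ) - J l) -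
        (2 * ∑ l, (β l : ℝ) * ((I l : ℝ) - J l)) * (z.1 - w.1) := by
    rw [Finset.mul_sum, Finset.sum_mul, ← Finset.sum_sub_distrib]
    exact Finset.sum_congr rfl fun l _ => by ring
  rw [e2]
  have e3 : ∀ y : ℝ × (Fin r → ℝ), ∑ l, y.2 l * ((β l : ℝ) + ((I l : ℝ) - J l)) =
      ∑ l, y.2 l * (β l : ℝ) + ∑ l, y.2 l * ((I l : ℝ) - J l) := by
    intro y
    rw [← Finset.sum_add_distrib]
    exact Finset.sum_congr rfl fun l _ => by ring
  have e4 : ∑ l, w.2 l * -((β l : ℝ) + ((I l : ℝ) - J l)) =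
      - ∑ l, w.2 l * ((β l : ℝ) + ((I l : ℝ) - J l)) := by
    rw [← Finset.sum_neg_distrib]
    exact Finset.sum_congr rfl fun l _ => by ring
  rw [e4, e3 z, e3 w]
  simp only [sub_mul, Finset.sum_sub_distrib]
  ring

lemma offsum (r M M' : ℕ) (k₀ : ℤ) (ε B : ℝ) (β : Fin r → ℤ) (𝒜 : Finset (Finset ℕ))
    (W : Set (ℝ × (Fin r → ℝ))) (h : ℝ × (Fin r → ℝ) → ℂ)
    (hW : MeasurableSet W) (hWc : W ⊆ cube r) (hm : Measurable h) (hb : ∀ z, ‖h z‖ ≤ 1)
    (hB : ∀ t x, ∑ A ∈ 𝒜, ∑ A' ∈ 𝒜.erase A, ‖KA r M M' k₀ ε (symmDiff A A') t x‖ ≤ B) :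
    ∑ q ∈ (range M ×ˢ IJ r M') ×ˢ (range M ×ˢ IJ r M'),
      (∑ A ∈ 𝒜, ∑ A' ∈ 𝒜.erase A, phi ε (symmDiff A A') (ar r k₀ (df r q))) *
        ‖H W h (La r k₀ β (df r q))‖ ^ 2 ≤ B * (volume W).toReal ^ 2 := by
  refine offdiag ((range M ×ˢ IJ r M') ×ˢ (range M ×ˢ IJ r M')) (fun q => La r k₀ β (df r q))
    (fun q => ∑ A ∈ 𝒜, ∑ A' ∈ 𝒜.erase A, phi ε (symmDiff A A') (ar r k₀ (df r q))) B
    hW hWc hm hb ?_
  intro z w
  refine le_trans ?_ (hB ((z.1 - w.1) / (2 * Real.pi))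
    (fun l => ((z.2 l - w.2 l) - 2 * β l * (z.1 - w.1)) / (2 * Real.pi)))
  simp only [Complex.ofReal_sum, Finset.sum_mul]
  rw [Finset.sum_comm]
  refine (norm_sum_le _ _).trans (Finset.sum_le_sum fun A _ => ?_)
  rw [Finset.sum_comm]
  refine (norm_sum_le _ _).trans (Finset.sum_le_sum fun A' _ => ?_)
  obtain ⟨c, hc, hk⟩ := kernel r M M' k₀ ε (symmDiff A A') β z w
  rw [hk, norm_mul, hc, one_mul]

lemma diagsum (r M M' : ℕ) (k₀ : ℤ) (β : Fin r → ℤ)
    (W : Set (ℝ × (Fin r → ℝ))) (h : ℝ × (Fin r → ℝ) → ℂ)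
    (hW : MeasurableSet W) (hWc : W ⊆ cube r) (hm : Measurable h) (hb : ∀ z, ‖h z‖ ≤ 1) :
    ∑ q ∈ (range M ×ˢ IJ r M') ×ˢ (range M ×ˢ IJ r M'), ‖H W h (La r k₀ β (df r q))‖ ^ 2 ≤
      (M * (M' : ℝ) ^ r) * ((2 * Real.pi) ^ (r + 1) * (volume W).toReal) := by
  rw [Finset.sum_product_right]
  have h1 : ∀ y ∈ range M ×ˢ IJ r M',
      ∑ x ∈ range M ×ˢ IJ r M', ‖H W h (La r k₀ β (df r (x, y)))‖ ^ 2 ≤
        (2 * Real.pi) ^ (r + 1) * (volume W).toReal := by
    intro y _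
    refine bessel (range M ×ˢ IJ r M') (fun x => La r k₀ β (df r (x, y))) ?_ hW hWc hm hb
    intro x _ x' _ hxx
    have h2 := La_inj r k₀ β hxx
    unfold df at h2
    have h3 := congrArg Prod.fst h2
    have h4 := congrArg Prod.snd h2
    simp only [] at h3 h4
    refine Prod.ext ?_ (funext fun l => ?_)
    · have h5 : (x.1 : ℤ) = x'.1 := by linarith
      exact_mod_cast h5
    · have h5 := congrFun h4 l
      have h6 : (x.2 l : ℤ) = x'.2 l := by linarith
      exact_mod_cast h6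
  refine (Finset.sum_le_sum h1).trans ?_
  rw [Finset.sum_const, nsmul_eq_mul, Finset.card_product, Fintype.card_piFinset]
  simp only [Finset.card_range, Finset.prod_const, Finset.card_univ, Fintype.card_fin]
  push_cast
  exact le_refl _

theorem dual : S_dual := by
  classical
  intro r M M' L k₀ ε κ lam S₀ β a 𝒜 hM hM' hL hκ hlam hne hS hφ1 hφ2 hν hK ha
  set F : ℝ × (Fin r → ℝ) → ℂ := fun z => FF r (bx r S₀ β L) a z.1 z.2 with hF
  have hFE : ∀ z, F z = ∑ ξ ∈ bx r S₀ β L, a ξ * E r (ξ.1 ^ 2 + ∑ l, ξ.2 l ^ 2) ξ.2 z := by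
    intro z
    rw [hF]
    simp only [FF, E]
    refine Finset.sum_congr rfl fun ξ _ => ?_
    push_cast
    rfl
  have hFc : Continuous F := by
    have : F = fun z => ∑ ξ ∈ bx r S₀ β L, a ξ * E r (ξ.1 ^ 2 + ∑ l, ξ.2 l ^ 2) ξ.2 z :=
      funext hFE
    rw [this]
    exact continuous_finsetSum _ fun q _ => continuous_const.mul (cont_E _ _ _)
  set W : Set (ℝ × (Fin r → ℝ)) := {z ∈ cube r | lam < ‖F z‖} with hWdef
  change (volume W).toReal ≤ _
  have hWc : W ⊆ cube r := fun z hz => hz.1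
  have hW : MeasurableSet W :=
    (cube_meas r).inter (measurableSet_lt measurable_const hFc.norm.measurable)
  have hWf : volume W < ⊤ := lt_of_le_of_lt (measure_mono hWc) (cube_fin r)
  set h : ℝ × (Fin r → ℝ) → ℂ := fun z => (starRingEnd ℂ) (F z) / (‖F z‖ : ℂ) with hh
  have hm : Measurable h := by
    refine Measurable.div (Complex.continuous_conj.comp hFc).measurable ?_
    exact (Complex.continuous_ofReal.comp hFc.norm).measurable
  have hb : ∀ z, ‖h z‖ ≤ 1 := by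
    intro z
    rw [hh]
    simp only [norm_div, RCLike.norm_conj, Complex.norm_real, norm_norm]
    exact div_self_le_one _
  have hhF : ∀ z ∈ W, h z * F z = (‖F z‖ : ℂ) := by
    intro z hz
    have h0 : 0 < ‖F z‖ := hlam.trans hz.2
    have h0' : ((‖F z‖ : ℝ) : ℂ) ≠ 0 := by exact_mod_cast h0.ne'
    rw [hh]
    simp only []
    rw [div_mul_eq_mul_div, mul_comm, Complex.mul_conj, Complex.normSq_eq_norm_sq,
      div_eq_iff h0']
    push_cast
    ring
  set μ := (volume W).toReal with hμ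
  have hμ0 : 0 ≤ μ := ENNReal.toReal_nonneg
  set G : ℤ × (Fin r → ℤ) → ℂ := fun ξ => H W h (ξ.1 ^ 2 + ∑ l, ξ.2 l ^ 2, ξ.2) with hG
  -- lower bound
  have h1 : lam * μ ≤ ∑ ξ ∈ bx r S₀ β L, ‖a ξ‖ * ‖G ξ‖ := by
    have e1 : ∫ z in W, h z * F z = ∑ ξ ∈ bx r S₀ β L, a ξ * G ξ := by
      simp_rw [hFE, Finset.mul_sum]
      rw [integral_finsetSum]
      · refine Finset.sum_congr rfl fun ξ _ => ?_
        rw [hG]
        simp only [H]
        rw [← integral_const_mul]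
        refine integral_congr_ae (Filter.Eventually.of_forall fun z => ?_)
        simp only []
        ring
      · intro ξ _
        exact meas_int hW hWc hm hb _ (continuous_const.mul (cont_E _ _ _))
    have e2 : ∫ z in W, h z * F z = ((∫ z in W, ‖F z‖ : ℝ) : ℂ) := by
      rw [← integral_complex_ofReal]
      exact setIntegral_congr_fun hW hhF
    have e3 : lam * μ ≤ ∫ z in W, ‖F z‖ := by
      have e4 : ∫ _z in W, lam = lam * μ := by
        rw [setIntegral_const, hμ]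
        simp only [Measure.real, smul_eq_mul]
        ring
      rw [← e4]
      refine setIntegral_mono_on (integrableOn_const hWf.ne) ?_ hW (fun z hz => hz.2.le)
      exact (hFc.norm.continuousOn.integrableOn_compact (cube_compact r)).mono_set hWc
    have e5 : ∫ z in W, ‖F z‖ ≤ ‖∑ ξ ∈ bx r S₀ β L, a ξ * G ξ‖ := by
      rw [← e1, e2, Complex.norm_real, Real.norm_eq_abs]
      exact le_abs_self _
    refine e3.trans (e5.trans ((norm_sum_le _ _).trans (le_of_eq ?_)))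
    exact Finset.sum_congr rfl fun ξ _ => norm_mul _ _
  have h2 : (lam * μ) ^ 2 ≤ ∑ ξ ∈ bx r S₀ β L, ‖G ξ‖ ^ 2 := by
    have e1 : (lam * μ) ^ 2 ≤ (∑ ξ ∈ bx r S₀ β L, ‖a ξ‖ * ‖G ξ‖) ^ 2 :=
      pow_le_pow_left₀ (by positivity) h1 2
    have e2 := Finset.sum_mul_sq_le_sq_mul_sq (bx r S₀ β L) (fun ξ => ‖a ξ‖) (fun ξ => ‖G ξ‖)
    have e3 : 0 ≤ ∑ ξ ∈ bx r S₀ β L, ‖G ξ‖ ^ 2 := Finset.sum_nonneg fun _ _ => by positivity
    calc (lam * μ) ^ 2 ≤ _ := e1
      _ ≤ _ := e2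
      _ ≤ 1 * ∑ ξ ∈ bx r S₀ β L, ‖G ξ‖ ^ 2 := mul_le_mul_of_nonneg_right ha e3
      _ = _ := one_mul _
  set n : ℝ := (𝒜.card : ℝ) with hn
  have hn0 : 0 < n := by
    rw [hn]
    exact_mod_cast hne.card_pos
  set f : ℤ × (Fin r → ℤ) → ℝ := fun p =>
    (∑ A ∈ 𝒜, phi ε A (ar r k₀ p)) ^ 2 * ‖H W h (La r k₀ β p)‖ ^ 2 with hf
  have hf0 : ∀ p, 0 ≤ f p := fun p => by rw [hf]; positivity
  have h3 : κ * n ^ 2 * ∑ ξ ∈ bx r S₀ β L, ‖G ξ‖ ^ 2 ≤
      ∑ ξ ∈ bx r S₀ β L, f (pr r k₀ β ξ) := by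
    rw [Finset.mul_sum]
    refine Finset.sum_le_sum fun ξ hξ => ?_
    rw [hf]
    simp only []
    rw [La_pr]
    have e1 : ar r k₀ (pr r k₀ β ξ) = ξ.1 ^ 2 := by
      unfold ar pr
      simp only [Pi.sub_apply]
      ring
    rw [e1]
    refine mul_le_mul_of_nonneg_right ?_ (by positivity)
    refine hν _ ?_
    unfold bx at hξ
    exact (Finset.mem_product.mp hξ).1
  have h4 := comb r M M' L k₀ S₀ β f hf0 hL hS
  set B : ℝ := κ * n ^ 2 * M * M' ^ r * lam ^ 2 / 2 ^ (r + 3) with hBdef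
  set R : ℝ := (2 * Real.pi) ^ (r + 1) with hR
  have h5 : ∑ y ∈ range M ×ˢ IJ r M', ∑ x ∈ range M ×ˢ IJ r M', f (df r (x, y)) ≤
      n * ((M * (M' : ℝ) ^ r) * (R * μ)) + B * μ ^ 2 := by
    rw [← Finset.sum_product_right (f := fun q => f (df r q))]
    have e1 : ∀ q : (ℕ × (Fin r → ℕ)) × (ℕ × (Fin r → ℕ)), f (df r q) ≤
        n * ‖H W h (La r k₀ β (df r q))‖ ^ 2 +
        (∑ A ∈ 𝒜, ∑ A' ∈ 𝒜.erase A, phi ε (symmDiff A A') (ar r k₀ (df r q))) *
        ‖H W h (La r k₀ β (df r q))‖ ^ 2 := by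
      intro q
      rw [hf]
      simp only []
      rw [← add_mul]
      refine mul_le_mul_of_nonneg_right ?_ (by positivity)
      have e2 : (∑ A ∈ 𝒜, phi ε A (ar r k₀ (df r q))) ^ 2 =
          ∑ A ∈ 𝒜, phi ε A (ar r k₀ (df r q)) ^ 2 + ∑ A ∈ 𝒜, ∑ A' ∈ 𝒜.erase A,
            phi ε (symmDiff A A') (ar r k₀ (df r q)) := by
        rw [sq, Finset.sum_mul_sum, ← Finset.sum_add_distrib]
        refine Finset.sum_congr rfl fun A hA => ?_
        rw [← Finset.add_sum_erase 𝒜 _ hA, sq]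
        congr 1
        refine Finset.sum_congr rfl fun A' hA' => ?_
        exact hφ2 A hA A' (Finset.mem_of_mem_erase hA')
          (Finset.ne_of_mem_erase hA').symm _
      rw [e2]
      have e3 : ∑ A ∈ 𝒜, phi ε A (ar r k₀ (df r q)) ^ 2 ≤ n := by
        calc ∑ A ∈ 𝒜, phi ε A (ar r k₀ (df r q)) ^ 2 ≤ ∑ _A ∈ 𝒜, (1 : ℝ) :=
              Finset.sum_le_sum fun A hA => hφ1 A hA _
          _ = n := by simp [hn]
      linarith
    refine (Finset.sum_le_sum fun q _ => e1 q).trans ?_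
    rw [Finset.sum_add_distrib, ← Finset.mul_sum]
    have e4 := diagsum r M M' k₀ β W h hW hWc hm hb
    have e5 := offsum r M M' k₀ ε B β 𝒜 W h hW hWc hm hb hK
    exact add_le_add (mul_le_mul_of_nonneg_left e4 hn0.le) e5
  -- conclusion
  have hMp : (0 : ℝ) < M := by exact_mod_cast hM
  have hMp' : (0 : ℝ) < M' := by exact_mod_cast hM'
  set P : ℝ := M * (M' : ℝ) ^ r with hP
  have hP0 : 0 < P := by positivity
  have hR0 : 0 < R := by positivity
  have h6 : (M : ℝ) / 2 * ((M' : ℝ) / 2) ^ r = P / 2 ^ (r + 1) := by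
    rw [hP, div_pow, pow_succ]
    field_simp
  rw [h6] at h4
  have h7 : P / 2 ^ (r + 1) * (κ * n ^ 2 * (lam * μ) ^ 2) ≤
      2 * (n * (P * (R * μ)) + B * μ ^ 2) := by
    calc P / 2 ^ (r + 1) * (κ * n ^ 2 * (lam * μ) ^ 2)
        ≤ P / 2 ^ (r + 1) * (κ * n ^ 2 * ∑ ξ ∈ bx r S₀ β L, ‖G ξ‖ ^ 2) := by gcongr
      _ ≤ P / 2 ^ (r + 1) * ∑ ξ ∈ bx r S₀ β L, f (pr r k₀ β ξ) := by gcongr
      _ ≤ 2 * ∑ y ∈ range M ×ˢ IJ r M', ∑ x ∈ range M ×ˢ IJ r M', f (df r (x, y)) := h4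
      _ ≤ _ := by linarith
  have h8 : B = P * (κ * n ^ 2 * lam ^ 2) / 2 ^ (r + 3) := by
    rw [hBdef, hP]
    ring
  rw [h8] at h7
  rcases hμ0.eq_or_lt with h9 | h9
  · rw [← h9]
    positivity
  · rw [le_div_iff₀ (by positivity)]
    have h10 : (2 : ℝ) ^ (r + 3) = 4 * 2 ^ (r + 1) := by ring
    rw [h10] at h7 ⊢
    have hT : (0 : ℝ) < 2 ^ (r + 1) := by positivity
    have h11 : P / 2 ^ (r + 1) * (κ * n ^ 2 * (lam * μ) ^ 2) =
        (P * n * μ / 2 ^ (r + 1)) * (κ * n * lam ^ 2 * μ) := by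
      field_simp
    have h12 : 2 * (n * (P * (R * μ)) + P * (κ * n ^ 2 * lam ^ 2) / (4 * 2 ^ (r + 1)) * μ ^ 2) =
        (P * n * μ / 2 ^ (r + 1)) * (2 * 2 ^ (r + 1) * R + κ * n * lam ^ 2 * μ / 2) := by
      field_simp
      ring
    rw [h11, h12] at h7
    have h13 := le_of_mul_le_mul_left h7 (by positivity)
    nlinarith [h13]

end Pool.Agent.Helper96.AS.Dual
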